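import Pool.Agent.H73.TS.Targets

/-! Module FLAT: the Wills functional does not depend on the dimension. -/

open MeasureTheory Set Metric Filter
open scoped ENNReal Topology

namespace Pool.Agent.H14.TS

open Pool.Agent.H73.TS

theorem infDist_flat {n : ℕ} (A : Set (E n)) (hA : A.Nonempty) (c s : ℝ) (z : E n) :
    infDist (cons s z) ((fun y => cons c y) '' A) ^ 2 = (s - c) ^ 2 + infDist z A ^ 2 := by
  set B := (fun y => cons c y) '' A with hB
  have hBne : B.Nonempty := hA.image _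
  have hD0 : 0 ≤ infDist (cons s z) B := infDist_nonneg
  have hI0 : 0 ≤ infDist z A := infDist_nonneg
  apply le_antisymm
  · by_contra hc
    rw [not_le] at hc
    set D := infDist (cons s z) B with hD
    have h1 : infDist z A < Real.sqrt (D ^ 2 - (s - c) ^ 2) := by
      apply Real.lt_sqrt_of_sq_lt
      linarith
    obtain ⟨y, hy, hzy⟩ := (infDist_lt_iff hA).1 h1
    have h2 : D ≤ dist (cons s z) (cons c y) := infDist_le_dist_of_mem (mem_image_of_mem _ hy)
    have h3 := dist_cons_sq s c z y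
    have h4 : dist z y ^ 2 < D ^ 2 - (s - c) ^ 2 := by
      have h5 : (0 : ℝ) ≤ D ^ 2 - (s - c) ^ 2 := by nlinarith [sq_nonneg (infDist z A)]
      calc dist z y ^ 2 < Real.sqrt (D ^ 2 - (s - c) ^ 2) ^ 2 :=
            pow_lt_pow_left₀ hzy dist_nonneg two_ne_zero
        _ = _ := Real.sq_sqrt h5
    have h5 : D ^ 2 ≤ dist (cons s z) (cons c y) ^ 2 := pow_le_pow_left₀ hD0 h2 2
    linarith
  · have h1 : Real.sqrt ((s - c) ^ 2 + infDist z A ^ 2) ≤ infDist (cons s z) B := by
      rw [le_infDist hBne]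
      rintro _ ⟨y, hy, rfl⟩
      have h2 : infDist z A ≤ dist z y := infDist_le_dist_of_mem hy
      have h3 := dist_cons_sq s c z y
      apply Real.sqrt_le_iff.2
      refine ⟨dist_nonneg, ?_⟩
      simp only
      rw [h3]
      have h4 : infDist z A ^ 2 ≤ dist z y ^ 2 := pow_le_pow_left₀ hI0 h2 2
      linarith
    have h2 : (0 : ℝ) ≤ (s - c) ^ 2 + infDist z A ^ 2 := by positivity
    calc (s - c) ^ 2 + infDist z A ^ 2 = Real.sqrt ((s - c) ^ 2 + infDist z A ^ 2) ^ 2 :=
          (Real.sq_sqrt h2).symm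
      _ ≤ _ := pow_le_pow_left₀ (Real.sqrt_nonneg _) h1 2

theorem gauss_one (c : ℝ) : ∫ s : ℝ, Real.exp (-(Real.pi * (s - c) ^ 2)) = 1 := by
  have h1 : ∫ s : ℝ, Real.exp (-(Real.pi * (s - c) ^ 2)) =
      ∫ s : ℝ, Real.exp (-(Real.pi * s ^ 2)) :=
    integral_sub_right_eq_self (fun s : ℝ => Real.exp (-(Real.pi * s ^ 2))) c
  rw [h1]
  have h2 := integral_gaussian Real.pi
  rw [div_self Real.pi_ne_zero, Real.sqrt_one] at h2
  rw [← h2]
  refine integral_congr_ae (Eventually.of_forall fun s => ?_)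
  simp only [neg_mul]

theorem flat (hFUB : T_FUB) : T_FLAT := by
  intro n A c hA _
  obtain ⟨e, he, hmp⟩ := hFUB n
  unfold W
  rw [← hmp.integral_comp' (f := e)]
  have h1 : ∀ p : ℝ × E n, Real.exp (-(Real.pi * infDist (e p) ((fun y => cons c y) '' A) ^ 2)) =
      Real.exp (-(Real.pi * (p.1 - c) ^ 2)) * Real.exp (-(Real.pi * infDist p.2 A ^ 2)) := by
    intro p
    rw [he, infDist_flat A hA, ← Real.exp_add]
    congr 1
    ring
  rw [integral_congr_ae (Eventually.of_forall h1), Measure.volume_eq_prod,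
    integral_prod_mul (fun s : ℝ => Real.exp (-(Real.pi * (s - c) ^ 2)))
      (fun z : E n => Real.exp (-(Real.pi * infDist z A ^ 2))), gauss_one, one_mul]

end Pool.Agent.H14.TS
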