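import Pool.Agent.H73.TS.Targets

/-! Module VAL: the Wills functional is a valuation. -/

open MeasureTheory Set Metric Filter
open scoped ENNReal Topology

namespace Pool.Agent.H14.TS

open Pool.Agent.H73.TS

/-- between a point below and a point above there is a point of the section -/
theorem exists_mid {n : ℕ} (Q : Set (E (n + 1))) (c : ℝ) (hQ : Convex ℝ Q) (x p q : E (n + 1))
    (hp : p ∈ Q) (hq : q ∈ Q) (hpc : p 0 ≤ c) (hqc : c ≤ q 0) :
    ∃ m ∈ Q ∩ {x | x 0 = c}, dist x m ≤ max (dist x p) (dist x q) := by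
  obtain ⟨s, hs0, hs1, hs⟩ : ∃ s : ℝ, 0 ≤ s ∧ s ≤ 1 ∧ (1 - s) * p 0 + s * q 0 = c := by
    rcases eq_or_lt_of_le (hpc.trans hqc) with h | h
    · refine ⟨0, le_rfl, zero_le_one, ?_⟩
      have h1 : p 0 = c := le_antisymm hpc (h ▸ hqc)
      rw [h1]; ring
    · have h1 : 0 < q 0 - p 0 := by linarith
      refine ⟨(c - p 0) / (q 0 - p 0), div_nonneg (by linarith) h1.le, ?_, ?_⟩
      · rw [div_le_one h1]; linarith
      · field_simp
        ring
  have hmem : (1 - s) • p + s • q ∈ Q := hQ hp hq (by linarith) hs0 (by ring)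
  refine ⟨(1 - s) • p + s • q, ⟨hmem, ?_⟩, ?_⟩
  · simp only [Set.mem_ofPred_eq, PiLp.add_apply, PiLp.smul_apply, smul_eq_mul]
    exact hs
  · have h1 : p ∈ closedBall x (max (dist x p) (dist x q)) := by
      rw [mem_closedBall, dist_comm]
      exact le_max_left _ _
    have h2 : q ∈ closedBall x (max (dist x p) (dist x q)) := by
      rw [mem_closedBall, dist_comm]
      exact le_max_right _ _
    have h3 := convex_closedBall x (max (dist x p) (dist x q)) h1 h2
      (by linarith : (0 : ℝ) ≤ 1 - s) hs0 (by ring)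
    rw [mem_closedBall, dist_comm] at h3
    exact h3

theorem val (hINT : T_INT) : T_VAL := by
  intro n Q c hQc hQ hm hp
  set Qm := Q ∩ {x : E (n + 1) | x 0 ≤ c} with hQm
  set Qp := Q ∩ {x : E (n + 1) | c ≤ x 0} with hQp
  set H := Q ∩ {x : E (n + 1) | x 0 = c} with hH
  have hcont : Continuous fun x : E (n + 1) => x 0 := by fun_prop
  have hQmc : IsCompact Qm := hQc.inter_right (isClosed_le hcont continuous_const)
  have hQpc : IsCompact Qp := hQc.inter_right (isClosed_le continuous_const hcont)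
  have hHm : H ⊆ Qm := fun x hx => ⟨hx.1, le_of_eq hx.2⟩
  have hHp : H ⊆ Qp := fun x hx => ⟨hx.1, ge_of_eq hx.2⟩
  have hmQ : Qm ⊆ Q := inter_subset_left
  have hpQ : Qp ⊆ Q := inter_subset_left
  obtain ⟨p0, hp0⟩ := hm
  obtain ⟨q0, hq0⟩ := hp
  have hHne : H.Nonempty := by
    obtain ⟨m, hm, -⟩ := exists_mid Q c hQ p0 p0 q0 hp0.1 hq0.1 hp0.2 hq0.2
    exact ⟨m, hm⟩
  have hQne : Q.Nonempty := ⟨p0, hp0.1⟩
  have key : ∀ x : E (n + 1), Real.exp (-(Real.pi * infDist x Q ^ 2)) +
      Real.exp (-(Real.pi * infDist x H ^ 2)) =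
      Real.exp (-(Real.pi * infDist x Qm ^ 2)) + Real.exp (-(Real.pi * infDist x Qp ^ 2)) := by
    intro x
    obtain ⟨p, hpm, hpd⟩ := hQmc.exists_infDist_eq_dist ⟨p0, hp0⟩ x
    obtain ⟨q, hqm, hqd⟩ := hQpc.exists_infDist_eq_dist ⟨q0, hq0⟩ x
    have h1 : infDist x Q = min (infDist x Qm) (infDist x Qp) := by
      apply le_antisymm
      · exact le_min (infDist_le_infDist_of_subset hmQ ⟨p0, hp0⟩)
          (infDist_le_infDist_of_subset hpQ ⟨q0, hq0⟩)
      · obtain ⟨y, hy, hyd⟩ := hQc.exists_infDist_eq_dist hQne x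
        rw [hyd]
        rcases le_total (y 0) c with h | h
        · exact (min_le_left _ _).trans (infDist_le_dist_of_mem ⟨hy, h⟩)
        · exact (min_le_right _ _).trans (infDist_le_dist_of_mem ⟨hy, h⟩)
    have h2 : infDist x H = max (infDist x Qm) (infDist x Qp) := by
      apply le_antisymm
      · obtain ⟨m, hmH, hmd⟩ := exists_mid Q c hQ x p q hpm.1 hqm.1 hpm.2 hqm.2
        rw [hpd, hqd]
        exact (infDist_le_dist_of_mem hmH).trans hmd
      · exact max_le (infDist_le_infDist_of_subset hHm hHne)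
          (infDist_le_infDist_of_subset hHp hHne)
    rw [h1, h2]
    rcases le_total (infDist x Qm) (infDist x Qp) with h | h
    · rw [min_eq_left h, max_eq_right h]
    · rw [min_eq_right h, max_eq_left h, add_comm]
  have i1 := (hINT (n + 1) Q hQne hQc.isBounded).1
  have i2 := (hINT (n + 1) H hHne (hQc.isBounded.subset inter_subset_left)).1
  have i3 := (hINT (n + 1) Qm ⟨p0, hp0⟩ hQmc.isBounded).1
  have i4 := (hINT (n + 1) Qp ⟨q0, hq0⟩ hQpc.isBounded).1
  unfold W
  rw [← integral_add i1 i2, ← integral_add i3 i4]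
  exact integral_congr_ae (Eventually.of_forall key)

end Pool.Agent.H14.TS
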